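import Pool.Agent.Helper32.LK.Arc

/-!
# The plane over a field with `2k` elements, `k` a power of two: definitions

`F` is a finite field of characteristic two with `q = 2k` elements, `tb a` (the trace bit) is true
iff `a` is not of the form `z^2 + z`. The line `l = (d, c)` is `y = d^2 x + c`. With
`u i l = κ i d + κ i^2 c + τ i` and `bit i (x,y) = tb (κ i^2 x y + τ i x)` one has
`bit i p = tb (u i l * x)` for `p = (x,y)` on `l`. Hubs are the points with at least two true bits.
-/

set_option autoImplicit false

namespace Pool.Agent.Helper48.SL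

open Pool.Agent.Helper32.Arc (AS)

/-- The parameters. -/
structure Par (F : Type) [Field F] where
  κ : Fin 3 → F
  τ : Fin 3 → F
  κ_ne : ∀ i, κ i ≠ 0
  κ_sum : κ 0 + κ 1 + κ 2 = 0
  τ_sum : τ 0 + τ 1 + τ 2 = 1

variable {F : Type} [Field F] [Fintype F]

open Classical in
/-- The trace bit. -/
noncomputable def tb (a : F) : Bool := decide (¬ AS a)

/-- The linear forms of a line. -/
def u (P : Par F) (i : Fin 3) (l : F × F) : F := P.κ i * l.1 + P.κ i ^ 2 * l.2 + P.τ i

/-- The three bits of a point. -/
noncomputable def bit (P : Par F) (i : Fin 3) (p : F × F) : Bool :=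
  tb (P.κ i ^ 2 * (p.1 * p.2) + P.τ i * p.1)

/-- The hubs. -/
def IsHub (P : Par F) (p : F × F) : Prop := 2 ≤ (Finset.univ.filter fun i => bit P i p = true).card

/-- The point `p` is on the line `l`. -/
def On (l p : F × F) : Prop := p.2 = l.1 ^ 2 * p.1 + l.2

open Classical in
/-- The number of the vanishing linear forms. -/
noncomputable def n0 (P : Par F) (l : F × F) : ℕ := (Finset.univ.filter fun i => u P i l = 0).card

open Classical in
/-- The number of the linear forms with value one. -/
noncomputable def n1 (P : Par F) (l : F × F) : ℕ := (Finset.univ.filter fun i => u P i l = 1).card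

open Classical in
/-- The basic weight of a line. -/
noncomputable def bw (P : Par F) (l : F × F) : ℝ :=
  if n0 P l = 0 ∧ n1 P l < 3 then 1 - (n1 P l : ℝ) / 2 else 0

/-- The special line(s): all linear forms are one. -/
def Spl (P : Par F) (s : F × F) : Prop := ∀ i, u P i s = 1

end Pool.Agent.Helper48.SL
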