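import Mathlib

/-!
# S1a. Sign patterns of quadratic characters
-/

set_option autoImplicit false
set_option linter.unusedSectionVars false

namespace Pool.Agent.Helper48.SL

open Finset

section

variable {p : ℕ} [Fact p.Prime]

lemma chi_ne_zero {x : ZMod p} (h : x ≠ 0) :
    quadraticChar (ZMod p) x = 1 ∨ quadraticChar (ZMod p) x = -1 :=
  quadraticChar_dichotomy h

lemma chi_sq {x : ZMod p} (h : x ≠ 0) :
    quadraticChar (ZMod p) x * quadraticChar (ZMod p) x = 1 := by
  rcases chi_ne_zero h with h1 | h1 <;> rw [h1] <;> norm_num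

lemma chi_symm (hp : p % 4 = 1) (x y : ZMod p) :
    quadraticChar (ZMod p) (x - y) = quadraticChar (ZMod p) (y - x) := by
  have h1 : quadraticChar (ZMod p) (-1) = 1 := by
    rw [quadraticChar_one_iff_isSquare (neg_ne_zero.2 one_ne_zero)]
    rw [ZMod.exists_sq_eq_neg_one_iff]
    omega
  have h2 : x - y = (-1) * (y - x) := by ring
  rw [h2, map_mul, h1, one_mul]

/-- Many values of `t` with a given sign. -/
lemma exists_t (m : ℕ) (hp : 2 * (m + 4) < p) (ε : ℤ) (hε : ε = 1 ∨ ε = -1) :
    ∃ T : Finset (ZMod p), m < T.card ∧ ∀ t ∈ T, quadraticChar (ZMod p) t = ε ∧ t ≠ 0 ∧ t ≠ 1 := by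
  classical
  have hp2 : p ≠ 2 := by omega
  obtain ⟨n, hn⟩ : ∃ n : ZMod p, quadraticChar (ZMod p) n = ε := by
    rcases hε with h | h
    · exact ⟨1, by rw [h]; simp⟩
    · obtain ⟨n, hn⟩ := quadraticChar_exists_neg_one (F := ZMod p) (by
        rw [ZMod.ringChar_zmod_n]; exact hp2)
      exact ⟨n, by rw [h]; exact hn⟩
  have hn0 : n ≠ 0 := by
    rintro rfl
    rw [quadraticChar_zero] at hn
    rcases hε with h | h <;> omega
  have hne : ∀ s : ℕ, 0 < s → s < p → (s : ZMod p) ≠ 0 := by
    intro s h1 h2 h3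
    rw [ZMod.natCast_eq_zero_iff] at h3
    exact absurd (Nat.le_of_dvd h1 h3) (by omega)
  have hinj : ∀ s ∈ Finset.Icc 2 (m + 4), ∀ s' ∈ Finset.Icc 2 (m + 4),
      n * (s : ZMod p) ^ 2 = n * (s' : ZMod p) ^ 2 → s = s' := by
    intro s hs s' hs' h
    rw [Finset.mem_Icc] at hs hs'
    have h1 := mul_left_cancel₀ hn0 h
    rcases sq_eq_sq_iff_eq_or_eq_neg.1 h1 with h2 | h2
    · have h3 := (ZMod.natCast_eq_natCast_iff' s s' p).1 h2
      rw [Nat.mod_eq_of_lt (by omega), Nat.mod_eq_of_lt (by omega)] at h3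
      exact h3
    · exfalso
      have h3 : ((s + s' : ℕ) : ZMod p) = 0 := by
        push_cast
        rw [h2]
        ring
      exact hne (s + s') (by omega) (by omega) h3
  set T0 := (Finset.Icc 2 (m + 4)).image fun s : ℕ => n * (s : ZMod p) ^ 2 with hT0
  have hT0c : T0.card = m + 3 := by
    rw [hT0, Finset.card_image_of_injOn (fun s hs s' hs' h => hinj s hs s' hs' h), Nat.card_Icc]
    omega
  refine ⟨T0.erase 1, ?_, ?_⟩
  · have := Finset.pred_card_le_card_erase (s := T0) (a := (1 : ZMod p))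
    omega
  · intro t ht
    rw [Finset.mem_erase, hT0, Finset.mem_image] at ht
    obtain ⟨h1, s, hs, rfl⟩ := ht
    rw [Finset.mem_Icc] at hs
    have h2 := hne s (by omega) (by omega)
    refine ⟨?_, mul_ne_zero hn0 (pow_ne_zero 2 h2), h1⟩
    rw [map_mul, hn, map_pow, sq, chi_sq h2, mul_one]

/-- For `x ≠ x'` there is a new `y` such that `(x - y)(x' - y)` has a given sign. -/
lemma exists_y (m : ℕ) (hp : 2 * (m + 4) < p) (ε : ℤ) (hε : ε = 1 ∨ ε = -1)
    (A : Finset (ZMod p)) (hA : A.card ≤ m) (x x' : ZMod p) (hx : x ≠ x') :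
    ∃ y, y ∉ A ∧ y ≠ x ∧ y ≠ x' ∧
      quadraticChar (ZMod p) (x - y) * quadraticChar (ZMod p) (x' - y) = ε := by
  classical
  obtain ⟨T, hTc, hT⟩ := exists_t m hp ε hε
  have hinj : Set.InjOn (fun t : ZMod p => (t * x - x') / (t - 1)) (T : Set (ZMod p)) := by
    intro t ht t' ht' h
    have h1 : t - 1 ≠ 0 := sub_ne_zero.2 (hT t ht).2.2
    have h2 : t' - 1 ≠ 0 := sub_ne_zero.2 (hT t' ht').2.2
    simp only at h
    rw [div_eq_div_iff h1 h2] at h
    have h3 : (t - t') * (x - x') = 0 := by linear_combination -h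
    rcases mul_eq_zero.1 h3 with h4 | h4
    · exact sub_eq_zero.1 h4
    · exact absurd (sub_eq_zero.1 h4) hx
  obtain ⟨y, hy, hyA⟩ := Finset.exists_mem_notMem_of_card_lt_card
    (s := A) (t := T.image fun t : ZMod p => (t * x - x') / (t - 1)) (by
      rw [Finset.card_image_of_injOn hinj]
      omega)
  rw [Finset.mem_image] at hy
  obtain ⟨t, ht, rfl⟩ := hy
  obtain ⟨ht1, ht2, ht3⟩ := hT t ht
  have h1 : t - 1 ≠ 0 := sub_ne_zero.2 ht3
  have hxx : x' - x ≠ 0 := sub_ne_zero.2 (fun h => hx h.symm)
  have h2 : x - (t * x - x') / (t - 1) = (x' - x) / (t - 1) := by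
    field_simp
    ring
  have h3 : x' - (t * x - x') / (t - 1) = t * ((x' - x) / (t - 1)) := by
    field_simp
    ring
  have h4 : (x' - x) / (t - 1) ≠ 0 := div_ne_zero hxx h1
  refine ⟨_, hyA, ?_, ?_, ?_⟩
  · intro h
    rw [h, sub_self] at h2
    exact h4 h2.symm
  · intro h
    rw [h, sub_self] at h3
    exact mul_ne_zero ht2 h4 h3.symm
  · rw [h2, h3, map_mul, mul_left_comm, chi_sq h4, mul_one, ht1]

variable {J : Type} [Fintype J] [DecidableEq J]

lemma update_inj {c : J → ZMod p} (hc : Function.Injective c) {a b : J} (hab : a ≠ b)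
    {x y : ZMod p} (hx : ∀ i, c i ≠ x) (hy : ∀ i, c i ≠ y) (hxy : y ≠ x) :
    Function.Injective (Function.update (Function.update c a x) b y) := by
  intro i j h
  simp only [Function.update_apply] at h
  by_cases hib : i = b
  · by_cases hjb : j = b
    · rw [hib, hjb]
    · rw [if_pos hib, if_neg hjb] at h
      by_cases hja : j = a
      · rw [if_pos hja] at h; exact absurd h hxy
      · rw [if_neg hja] at h; exact absurd h.symm (hy j)
  · rw [if_neg hib] at h
    by_cases hjb : j = b
    · rw [if_pos hjb] at h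
      by_cases hia : i = a
      · rw [if_pos hia] at h; exact absurd h.symm hxy
      · rw [if_neg hia] at h; exact absurd h (hy i)
    · rw [if_neg hjb] at h
      by_cases hia : i = a
      · by_cases hja : j = a
        · rw [hia, hja]
        · rw [if_pos hia, if_neg hja] at h; exact absurd h.symm (hx j)
      · by_cases hja : j = a
        · rw [if_neg hia, if_pos hja] at h; exact absurd h (hx i)
        · rw [if_neg hia, if_neg hja] at h; exact hc h

/-- The switch. -/
lemma switch (hp4 : p % 4 = 1) (hp : 2 * (Fintype.card J + 4) < p) {c : J → ZMod p}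
    (hc : Function.Injective c) {a b : J} (hab : a ≠ b) :
    ∃ C : Fin 4 → J → ZMod p, (∀ r, Function.Injective (C r)) ∧
      ∀ i j, i ≠ j → ∏ r, quadraticChar (ZMod p) (C r i - C r j) =
        if (i = a ∧ j = b) ∨ (i = b ∧ j = a) then -1 else 1 := by
  classical
  set A := (Finset.univ : Finset J).image c with hA
  have hAc : A.card ≤ Fintype.card J := Finset.card_image_le
  have hmem : ∀ z, z ∉ A → ∀ i, c i ≠ z := by
    intro z hz i h
    exact hz (Finset.mem_image.2 ⟨i, Finset.mem_univ _, h⟩)
  -- `x` and `x'`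
  have hcard : (Finset.univ : Finset (ZMod p)).card = p := by rw [Finset.card_univ, ZMod.card]
  obtain ⟨x, -, hx⟩ := Finset.exists_mem_notMem_of_card_lt_card (s := A)
    (t := (Finset.univ : Finset (ZMod p))) (by omega)
  obtain ⟨x', -, hx'⟩ := Finset.exists_mem_notMem_of_card_lt_card (s := insert x A)
    (t := (Finset.univ : Finset (ZMod p))) (by
      have := Finset.card_insert_le x A
      omega)
  rw [Finset.mem_insert, not_or] at hx'
  obtain ⟨y, hyA, hyx, hyx', hy⟩ := exists_y (Fintype.card J) hp 1 (Or.inl rfl) A hAc x x'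
    (fun h => hx'.1 h.symm)
  obtain ⟨z, hzA, hzx, hzx', hz⟩ := exists_y (Fintype.card J) hp (-1) (Or.inr rfl) A hAc x x'
    (fun h => hx'.1 h.symm)
  set f : ZMod p → ZMod p → J → ZMod p := fun u v =>
    Function.update (Function.update c a u) b v with hf
  have hfa : ∀ u v, f u v a = u := by
    intro u v
    simp only [hf, Function.update_apply]
    rw [if_neg hab, if_pos trivial]
  have hfb : ∀ u v, f u v b = v := by
    intro u v
    simp only [hf, Function.update_apply]
    rw [if_pos trivial]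
  have hfo : ∀ u v i, i ≠ a → i ≠ b → f u v i = c i := by
    intro u v i h1 h2
    simp only [hf, Function.update_apply]
    rw [if_neg h2, if_neg h1]
  refine ⟨![f x y, f x' y, f x z, f x' z], ?_, ?_⟩
  · intro r
    fin_cases r
    · exact update_inj hc hab (hmem x hx) (hmem y hyA) hyx
    · exact update_inj hc hab (hmem x' hx'.2) (hmem y hyA) hyx'
    · exact update_inj hc hab (hmem x hx) (hmem z hzA) hzx
    · exact update_inj hc hab (hmem x' hx'.2) (hmem z hzA) hzx'
  · intro i j hij
    rw [Fin.prod_univ_four]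
    show quadraticChar (ZMod p) (f x y i - f x y j) * quadraticChar (ZMod p) (f x' y i - f x' y j) *
      quadraticChar (ZMod p) (f x z i - f x z j) * quadraticChar (ZMod p) (f x' z i - f x' z j) = _
    have hne : ∀ u v, u ∉ A → v ∉ A → v ≠ u → quadraticChar (ZMod p) (f u v i - f u v j) *
        quadraticChar (ZMod p) (f u v i - f u v j) = 1 := by
      intro u v h1 h2 h3
      apply chi_sq
      rw [sub_ne_zero]
      intro h
      exact hij (update_inj hc hab (hmem u h1) (hmem v h2) h3 h)
    by_cases hia : i = a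
    · subst hia
      by_cases hjb : j = b
      · subst hjb
        rw [if_pos (Or.inl ⟨rfl, rfl⟩)]
        simp only [hfa, hfb]
        linear_combination quadraticChar (ZMod p) (x - z) * quadraticChar (ZMod p) (x' - z) * hy + hz
      · rw [if_neg (by rintro (⟨-, h⟩ | ⟨h, -⟩); exacts [hjb h, hab h])]
        have h1 := hne x y hx hyA hyx
        have h2 := hne x' y hx'.2 hyA hyx'
        simp only [hfa, hfo _ _ j (Ne.symm hij) hjb] at h1 h2 ⊢
        linear_combination quadraticChar (ZMod p) (x' - c j) * quadraticChar (ZMod p) (x' - c j) * h1 + h2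
    · by_cases hib : i = b
      · subst hib
        by_cases hja : j = a
        · subst hja
          rw [if_pos (Or.inr ⟨rfl, rfl⟩)]
          simp only [hfa, hfb]
          rw [chi_symm hp4 y x, chi_symm hp4 y x', chi_symm hp4 z x, chi_symm hp4 z x']
          linear_combination quadraticChar (ZMod p) (x - z) * quadraticChar (ZMod p) (x' - z) * hy + hz
        · rw [if_neg (by rintro (⟨h, -⟩ | ⟨-, h⟩); exacts [hia h, hja h])]
          have h1 := hne x y hx hyA hyx
          have h2 := hne x z hx hzA hzx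
          simp only [hfb, hfo _ _ j hja (Ne.symm hij)] at h1 h2 ⊢
          linear_combination quadraticChar (ZMod p) (z - c j) * quadraticChar (ZMod p) (z - c j) * h1 + h2
      · by_cases hja : j = a
        · subst hja
          rw [if_neg (by rintro (⟨h, -⟩ | ⟨h, -⟩); exacts [hia h, hib h])]
          have h1 := hne x y hx hyA hyx
          have h2 := hne x' y hx'.2 hyA hyx'
          simp only [hfa, hfo _ _ i hia hib] at h1 h2 ⊢
          linear_combination quadraticChar (ZMod p) (c i - x') * quadraticChar (ZMod p) (c i - x') * h1 + h2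
        · by_cases hjb : j = b
          · subst hjb
            rw [if_neg (by rintro (⟨h, -⟩ | ⟨h, -⟩); exacts [hia h, hib h])]
            have h1 := hne x y hx hyA hyx
            have h2 := hne x z hx hzA hzx
            simp only [hfb, hfo _ _ i hia hib] at h1 h2 ⊢
            linear_combination quadraticChar (ZMod p) (c i - z) * quadraticChar (ZMod p) (c i - z) * h1 + h2
          · rw [if_neg (by rintro (⟨h, -⟩ | ⟨h, -⟩); exacts [hia h, hib h])]
            have h1 := hne x y hx hyA hyx
            simp only [hfo _ _ i hia hib, hfo _ _ j hja hjb] at h1 ⊢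
            linear_combination (quadraticChar (ZMod p) (c i - c j) * quadraticChar (ZMod p) (c i - c j) + 1) * h1

end

theorem pattern (J : Type) [Fintype J] [DecidableEq J] : ∃ N p0 : ℕ, ∀ p : ℕ, p0 ≤ p →
    ∀ [Fact p.Prime], p % 4 = 1 → ∀ e : J → J → ℤ, (∀ i j, e i j = e j i) →
    (∀ i j, e i j = 1 ∨ e i j = -1) →
    ∃ c : J → Fin N → ZMod p, (∀ i j r, i ≠ j → c i r ≠ c j r) ∧
      ∀ i j, i ≠ j → ∏ r, quadraticChar (ZMod p) (c i r - c j r) = e i j := by
  classical
  set R : Type := Unit ⊕ (J × J) × Fin 4 with hR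
  refine ⟨Fintype.card R, 2 * (Fintype.card J + 4) + 1, ?_⟩
  intro p hp _ hp4 e hsym he
  -- the base function
  obtain ⟨c0, hc0⟩ : ∃ c0 : J → ZMod p, Function.Injective c0 := by
    have h1 : Fintype.card J ≤ Fintype.card (ZMod p) := by
      rw [ZMod.card]
      omega
    obtain ⟨f⟩ := Function.Embedding.nonempty_of_card_le h1
    exact ⟨f, f.injective⟩
  set o := Fintype.equivFin J with ho
  -- the coordinates of a pair
  have hex : ∀ q : J × J, ∃ C : Fin 4 → J → ZMod p, (∀ r, Function.Injective (C r)) ∧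
      ∀ i j, i ≠ j → ∏ r, quadraticChar (ZMod p) (C r i - C r j) =
        if (o q.1 < o q.2 ∧ e q.1 q.2 ≠ quadraticChar (ZMod p) (c0 q.1 - c0 q.2)) ∧
          ((i = q.1 ∧ j = q.2) ∨ (i = q.2 ∧ j = q.1)) then -1 else 1 := by
    intro q
    by_cases hq : o q.1 < o q.2 ∧ e q.1 q.2 ≠ quadraticChar (ZMod p) (c0 q.1 - c0 q.2)
    · obtain ⟨C, hC1, hC2⟩ := switch (J := J) hp4 (by omega) hc0 (a := q.1) (b := q.2) (by
        intro h
        rw [h] at hq
        exact lt_irrefl _ hq.1)
      refine ⟨C, hC1, fun i j hij => ?_⟩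
      rw [hC2 i j hij]
      congr 1
      simp only [hq, ne_eq, not_false_eq_true, and_self, true_and]
    · refine ⟨fun _ => c0, fun _ => hc0, fun i j hij => ?_⟩
      rw [if_neg (fun h => hq h.1), Fin.prod_univ_four]
      have h1 : quadraticChar (ZMod p) (c0 i - c0 j) * quadraticChar (ZMod p) (c0 i - c0 j) = 1 :=
        chi_sq (sub_ne_zero.2 fun h => hij (hc0 h))
      linear_combination (quadraticChar (ZMod p) (c0 i - c0 j) * quadraticChar (ZMod p) (c0 i - c0 j) + 1) * h1
  choose C hC1 hC2 using hex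
  set g : R → J → ZMod p := fun r => match r with
    | Sum.inl _ => c0
    | Sum.inr (q, v) => C q v with hg
  have hginj : ∀ r, Function.Injective (g r) := by
    rintro (_ | ⟨q, v⟩)
    · exact hc0
    · exact hC1 q v
  refine ⟨fun i n => g ((Fintype.equivFin R).symm n) i, ?_, ?_⟩
  · intro i j n hij h
    exact hij (hginj _ h)
  · intro i j hij
    have h1 : ∏ n, quadraticChar (ZMod p) (g ((Fintype.equivFin R).symm n) i -
        g ((Fintype.equivFin R).symm n) j) = ∏ r : R, quadraticChar (ZMod p) (g r i - g r j) :=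
      Fintype.prod_equiv (Fintype.equivFin R).symm _ _ fun n => rfl
    rw [h1, Fintype.prod_sum_type, Fintype.prod_prod_type]
    simp only [Finset.univ_unique, Finset.prod_singleton]
    have h2 : ∀ q : J × J, ∏ v, quadraticChar (ZMod p) (g (Sum.inr (q, v)) i - g (Sum.inr (q, v)) j) =
        if (o q.1 < o q.2 ∧ e q.1 q.2 ≠ quadraticChar (ZMod p) (c0 q.1 - c0 q.2)) ∧
          ((i = q.1 ∧ j = q.2) ∨ (i = q.2 ∧ j = q.1)) then -1 else 1 := fun q => hC2 q i j hij
    rw [Finset.prod_congr rfl fun q _ => h2 q]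
    show quadraticChar (ZMod p) (c0 i - c0 j) * _ = _
    have hone : quadraticChar (ZMod p) (c0 i - c0 j) = 1 ∨
        quadraticChar (ZMod p) (c0 i - c0 j) = -1 :=
      chi_ne_zero (sub_ne_zero.2 fun h => hij (hc0 h))
    -- only the ordered pair of `i` and `j` matters
    have key : ∀ a b : J, o a < o b → ((i = a ∧ j = b) ∨ (i = b ∧ j = a)) →
        (∏ q : J × J, if (o q.1 < o q.2 ∧ e q.1 q.2 ≠ quadraticChar (ZMod p) (c0 q.1 - c0 q.2)) ∧
          ((i = q.1 ∧ j = q.2) ∨ (i = q.2 ∧ j = q.1)) then (-1 : ℤ) else 1) =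
        if e a b ≠ quadraticChar (ZMod p) (c0 a - c0 b) then -1 else 1 := by
      intro a b hab hij2
      rw [Finset.prod_eq_single (a, b)]
      · simp only [hab, hij2, true_and, and_true]
      · rintro ⟨a', b'⟩ - hne
        rw [if_neg]
        rintro ⟨⟨h3, -⟩, h4⟩
        simp only at h3 h4
        apply hne
        rcases hij2 with ⟨rfl, rfl⟩ | ⟨rfl, rfl⟩
        · rcases h4 with ⟨h5, h6⟩ | ⟨h5, h6⟩
          · rw [h5, h6]
          · rw [← h5, ← h6] at h3
            exact absurd (h3.trans hab) (lt_irrefl _)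
        · rcases h4 with ⟨h5, h6⟩ | ⟨h5, h6⟩
          · rw [← h5, ← h6] at h3
            exact absurd (h3.trans hab) (lt_irrefl _)
          · rw [h5, h6]
      · intro h
        exact absurd (Finset.mem_univ _) h
    rcases lt_trichotomy (o i) (o j) with hlt | heq | hlt
    · rw [key i j hlt (Or.inl ⟨rfl, rfl⟩)]
      by_cases h3 : e i j = quadraticChar (ZMod p) (c0 i - c0 j)
      · rw [if_neg (not_not.2 h3), mul_one, h3]
      · rw [if_pos h3]
        rcases he i j with h4 | h4 <;> rcases hone with h5 | h5 <;> rw [h4, h5] at h3 ⊢ <;> first | exact absurd rfl h3 | norm_num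
    · exact absurd (o.injective heq) hij
    · rw [key j i hlt (Or.inr ⟨rfl, rfl⟩), hsym j i, chi_symm hp4 (c0 j) (c0 i)]
      by_cases h3 : e i j = quadraticChar (ZMod p) (c0 i - c0 j)
      · rw [if_neg (not_not.2 h3), mul_one, h3]
      · rw [if_pos h3]
        rcases he i j with h4 | h4 <;> rcases hone with h5 | h5 <;> rw [h4, h5] at h3 ⊢ <;> first | exact absurd rfl h3 | norm_num

end Pool.Agent.Helper48.SL
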