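import Pool.Agent.Helper32.SL.Field

/-!
# S6a. Incidences, loads and the total weight
-/

set_option autoImplicit false
set_option linter.unusedSectionVars false

namespace Pool.Agent.Helper48.SL

variable {F : Type} [Field F] [Fintype F] [CharP F 2] (P : Par F)

open Classical Pool.Agent.Helper32.SL

lemma bw_nonneg (l : F × F) : 0 ≤ bw P l := by
  unfold bw
  split_ifs with h
  · -- `n1 < 3` and `n1 ≠ 2`
    have h1 : n1 P l ≤ 2 := by omega
    have h2 : (n1 P l : ℝ) ≤ 2 := by exact_mod_cast h1
    linarith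
  · exact le_rfl

lemma bw_le_one (l : F × F) : bw P l ≤ 1 := by
  unfold bw
  split_ifs with h
  · have h2 : (0 : ℝ) ≤ n1 P l := Nat.cast_nonneg _
    linarith
  · norm_num

/-- Two lines with different slopes have exactly one common point. -/
lemma common (l l' : F × F) (h : l.1 ≠ l'.1) :
    (Finset.univ.filter fun p : F × F => On l p ∧ On l' p).card = 1 := by
  have hd : l.1 ^ 2 + l'.1 ^ 2 ≠ 0 := by
    intro h0
    rw [← CharTwo.add_sq] at h0
    have := pow_eq_zero_iff (two_ne_zero) |>.1 h0
    exact h (CharTwo.add_eq_zero.1 this)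
  rw [Finset.card_eq_one]
  refine ⟨((l.2 + l'.2) / (l.1 ^ 2 + l'.1 ^ 2),
    l.1 ^ 2 * ((l.2 + l'.2) / (l.1 ^ 2 + l'.1 ^ 2)) + l.2), ?_⟩
  ext ⟨x, y⟩
  rw [Finset.mem_filter, Finset.mem_singleton, Prod.mk.injEq]
  show (_ ∧ y = l.1 ^ 2 * x + l.2 ∧ y = l'.1 ^ 2 * x + l'.2) ↔ _
  constructor
  · rintro ⟨-, h1, h2⟩
    have h3 : x = (l.2 + l'.2) / (l.1 ^ 2 + l'.1 ^ 2) := by
      rw [eq_div_iff hd]
      have h4 : l.1 ^ 2 * x + l.2 + (l'.1 ^ 2 * x + l'.2) = 0 := by
        rw [← h1, ← h2, CharTwo.add_self_eq_zero]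
      have h5 : x * (l.1 ^ 2 + l'.1 ^ 2) + (l.2 + l'.2) = 0 := by
        rw [← h4]; ring
      exact CharTwo.add_eq_zero.1 h5
    exact ⟨h3, by rw [h1, ← h3]⟩
  · rintro ⟨h1, h2⟩
    refine ⟨Finset.mem_univ _, by rw [h2, h1], ?_⟩
    have h3 : (l.1 ^ 2 + l'.1 ^ 2) * x = l.2 + l'.2 := by
      rw [h1, mul_div_cancel₀ _ hd]
    rw [h2, ← h1]
    have h4 : l.1 ^ 2 * x + l.2 + (l'.1 ^ 2 * x + l'.2) = 0 := by
      have : l.1 ^ 2 * x + l.2 + (l'.1 ^ 2 * x + l'.2) = (l.1 ^ 2 + l'.1 ^ 2) * x + (l.2 + l'.2) := by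
        ring
      rw [this, h3, CharTwo.add_self_eq_zero]
    exact CharTwo.add_eq_zero.1 h4

lemma no_common (l l' : F × F) (h : l.1 = l'.1) (hne : l ≠ l') :
    (Finset.univ.filter fun p : F × F => On l p ∧ On l' p).card = 0 := by
  rw [Finset.card_eq_zero, Finset.filter_eq_empty_iff]
  rintro ⟨x, y⟩ - ⟨h1, h2⟩
  apply hne
  have h3 : l.1 ^ 2 * x + l.2 = l'.1 ^ 2 * x + l'.2 := by
    have h1' : y = l.1 ^ 2 * x + l.2 := h1
    have h2' : y = l'.1 ^ 2 * x + l'.2 := h2
    rw [← h1', ← h2']
  rw [h] at h3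
  exact Prod.ext h (add_left_cancel h3)

lemma unique_common {l l' p p' : F × F} (h : l ≠ l') (h1 : On l p) (h2 : On l' p) (h3 : On l p')
    (h4 : On l' p') : p = p' := by
  by_cases hd : l.1 = l'.1
  · have h5 := no_common l l' hd h
    rw [Finset.card_eq_zero, Finset.filter_eq_empty_iff] at h5
    exact absurd ⟨h1, h2⟩ (h5 (Finset.mem_univ p))
  · have h5 := common l l' hd
    rw [Finset.card_eq_one] at h5
    obtain ⟨r, hr⟩ := h5
    have h6 : p ∈ (Finset.univ.filter fun p : F × F => On l p ∧ On l' p) :=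
      Finset.mem_filter.2 ⟨Finset.mem_univ _, h1, h2⟩
    have h7 : p' ∈ (Finset.univ.filter fun p : F × F => On l p ∧ On l' p) :=
      Finset.mem_filter.2 ⟨Finset.mem_univ _, h3, h4⟩
    rw [hr, Finset.mem_singleton] at h6 h7
    rw [h6, h7]

/-- The points of a line. -/
lemma card_points (l : F × F) :
    (Finset.univ.filter fun p : F × F => On l p).card = Fintype.card F := by
  rw [← Finset.card_univ (α := F)]
  refine (Finset.card_bij (fun (x : F) _ => ((x, l.1 ^ 2 * x + l.2) : F × F)) ?_ ?_ ?_).symm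
  · intro x _
    exact Finset.mem_filter.2 ⟨Finset.mem_univ _, rfl⟩
  · intro x _ x' _ h
    exact (Prod.ext_iff.1 h).1
  · rintro ⟨x, y⟩ h
    refine ⟨x, Finset.mem_univ _, ?_⟩
    have h1 : y = l.1 ^ 2 * x + l.2 := (Finset.mem_filter.1 h).2
    rw [h1]

/-- For a weight function on the lines, the sum over the pencils at the points of `l` and over
the lines with the slope of `l`. -/
lemma sum_all (A : F × F → ℝ) (l : F × F) :
    ∑ p ∈ Finset.univ.filter (fun p : F × F => On l p),
        (∑ l' ∈ Finset.univ.filter (fun l' : F × F => On l' p), A l' - A l) +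
      (∑ l' ∈ Finset.univ.filter (fun l' : F × F => l'.1 = l.1), A l' - A l) =
      ∑ l', A l' - A l := by
  have h1 : ∀ p ∈ Finset.univ.filter (fun p : F × F => On l p),
      (∑ l' ∈ Finset.univ.filter (fun l' : F × F => On l' p), A l' - A l) =
        ∑ l' ∈ Finset.univ.erase l, if On l' p then A l' else 0 := by
    intro p hp
    have hp' : On l p := (Finset.mem_filter.1 hp).2
    have h2 : ∑ l' ∈ Finset.univ.filter (fun l' : F × F => On l' p), A l' =
        ∑ l' : F × F, if On l' p then A l' else 0 := by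
      rw [Finset.sum_filter]
    rw [h2, ← Finset.add_sum_erase Finset.univ _ (Finset.mem_univ l), if_pos hp']
    ring
  rw [Finset.sum_congr rfl h1, Finset.sum_comm]
  have h3 : ∑ l' ∈ Finset.univ.filter (fun l' : F × F => l'.1 = l.1), A l' - A l =
      ∑ l' ∈ Finset.univ.erase l, if l'.1 = l.1 then A l' else 0 := by
    have h2 : ∑ l' ∈ Finset.univ.filter (fun l' : F × F => l'.1 = l.1), A l' =
        ∑ l' : F × F, if l'.1 = l.1 then A l' else 0 := by
      rw [Finset.sum_filter]
    rw [h2, ← Finset.add_sum_erase Finset.univ _ (Finset.mem_univ l), if_pos rfl]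
    ring
  rw [h3, ← Finset.sum_add_distrib]
  have h4 : ∑ l', A l' - A l = ∑ l' ∈ Finset.univ.erase l, A l' := by
    rw [← Finset.add_sum_erase Finset.univ _ (Finset.mem_univ l)]
    ring
  rw [h4]
  refine Finset.sum_congr rfl fun l' hl' => ?_
  have hne : l ≠ l' := fun h => (Finset.mem_erase.1 hl').1 h.symm
  rw [← Finset.sum_filter, Finset.filter_filter, Finset.sum_const, nsmul_eq_mul]
  by_cases hd : l'.1 = l.1
  · rw [if_pos hd, no_common l l' hd.symm hne]
    simp
  · rw [if_neg hd, common l l' (fun h => hd h.symm)]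
    simp

/-! ### The special line -/

variable {P} {s : F × F} (hs : Spl P s) (huniq : ∀ s', Spl P s' → s' = s)

include hs in
lemma bw_spl : bw P s = 0 := by
  unfold bw
  rw [if_neg]
  rintro ⟨-, h⟩
  have : n1 P s = 3 := by
    unfold n1
    rw [Finset.filter_true_of_mem (fun i _ => hs i)]
    simp
  omega

include hs in
lemma two_card_special : 2 * (Finset.univ.filter fun p : F × F => On s p ∧ IsHub P p).card =
    Fintype.card F :=
  card_line P fun i => by rw [hs i]; exact one_ne_zero

include hs huniq in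
lemma hub_load' {p : F × F} (h : IsHub P p) :
    ∑ l ∈ Finset.univ.filter (fun l : F × F => On l p), bw P l =
      Fintype.card F - 3 + if On s p then 1 / 2 else 0 := by
  rw [hub_load P h]
  congr 1
  by_cases h1 : On s p
  · rw [if_pos h1, if_pos ⟨s, hs, h1⟩]
  · rw [if_neg h1, if_neg]
    rintro ⟨s', hs', h2⟩
    rw [huniq s' hs'] at h2
    exact h1 h2

/-- The line meets the special line in a hub. -/
def Sp (P : Par F) (s l : F × F) : Prop := ∃ p, IsHub P p ∧ On s p ∧ On l p

lemma good_card {l : F × F} (h : bw P l ≠ 0) :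
    2 * (Finset.univ.filter fun p : F × F => On l p ∧ IsHub P p).card = Fintype.card F := by
  apply card_line
  intro i hi
  apply h
  unfold bw
  rw [if_neg]
  rintro ⟨h0, -⟩
  unfold n0 at h0
  rw [Finset.card_eq_zero, Finset.filter_eq_empty_iff] at h0
  exact h0 (Finset.mem_univ i) hi

include hs huniq in
/-- The total basic weight. -/
lemma total_bw : (Fintype.card F : ℝ) * ∑ l, bw P l =
    (2 * (Fintype.card F : ℝ) ^ 2 - 3 * Fintype.card F) / 2 * (Fintype.card F - 3) +
      Fintype.card F / 2 := by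
  have h1 : ∑ p ∈ Finset.univ.filter (fun p : F × F => IsHub P p),
      ∑ l ∈ Finset.univ.filter (fun l : F × F => On l p), bw P l =
      ∑ l, ((Finset.univ.filter fun p : F × F => On l p ∧ IsHub P p).card : ℝ) * bw P l := by
    have h2 : ∀ p ∈ Finset.univ.filter (fun p : F × F => IsHub P p),
        ∑ l ∈ Finset.univ.filter (fun l : F × F => On l p), bw P l =
        ∑ l : F × F, if On l p then bw P l else 0 := by
      intro p _
      rw [Finset.sum_filter]
    rw [Finset.sum_congr rfl h2, Finset.sum_comm]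
    refine Finset.sum_congr rfl fun l _ => ?_
    rw [← Finset.sum_filter, Finset.filter_filter, Finset.sum_const, nsmul_eq_mul]
    congr 3
    ext p
    simp [and_comm]
  have h3 : ∑ l, ((Finset.univ.filter fun p : F × F => On l p ∧ IsHub P p).card : ℝ) * bw P l =
      (Fintype.card F : ℝ) / 2 * ∑ l, bw P l := by
    rw [Finset.mul_sum]
    refine Finset.sum_congr rfl fun l _ => ?_
    by_cases hb : bw P l = 0
    · rw [hb, mul_zero, mul_zero]
    · have h4 := good_card hb
      have h5 : (2 : ℝ) * ((Finset.univ.filter fun p : F × F => On l p ∧ IsHub P p).card : ℝ) =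
          Fintype.card F := by exact_mod_cast h4
      rw [← h5]
      ring
  have h6 : ∑ p ∈ Finset.univ.filter (fun p : F × F => IsHub P p),
      ∑ l ∈ Finset.univ.filter (fun l : F × F => On l p), bw P l =
      ((Finset.univ.filter fun p : F × F => IsHub P p).card : ℝ) * (Fintype.card F - 3) +
        (Fintype.card F : ℝ) / 2 * (1 / 2) := by
    rw [Finset.sum_congr rfl fun p hp => hub_load' hs huniq (Finset.mem_filter.1 hp).2,
      Finset.sum_add_distrib, Finset.sum_const, nsmul_eq_mul, ← Finset.sum_filter,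
      Finset.filter_filter, Finset.sum_const, nsmul_eq_mul]
    have h7 := two_card_special hs
    have h8 : (2 : ℝ) * ((Finset.univ.filter fun p : F × F => On s p ∧ IsHub P p).card : ℝ) =
        Fintype.card F := by exact_mod_cast h7
    have h9 : (Finset.univ.filter fun p : F × F => IsHub P p ∧ On s p) =
        (Finset.univ.filter fun p : F × F => On s p ∧ IsHub P p) := by
      ext p
      simp [and_comm]
    rw [h9, ← h8]
    ring
  have h10 := card_hub_set P
  rw [h1, h3] at h6
  have h11 : ((Finset.univ.filter fun p : F × F => IsHub P p).card : ℝ) =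
      (2 * (Fintype.card F : ℝ) ^ 2 - 3 * Fintype.card F) / 4 := by
    rw [← h10]; ring
  rw [h11] at h6
  linear_combination 2 * h6

include hs huniq in
/-- The basic weight of the lines which meet the special line in a hub. -/
lemma total_sp : ∑ l ∈ Finset.univ.filter (fun l : F × F => Sp P s l), bw P l =
    (Fintype.card F : ℝ) / 2 * (Fintype.card F - 5 / 2) := by
  have h1 : ∑ p ∈ Finset.univ.filter (fun p : F × F => On s p ∧ IsHub P p),
      ∑ l ∈ Finset.univ.filter (fun l : F × F => On l p), bw P l =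
      (Fintype.card F : ℝ) / 2 * (Fintype.card F - 5 / 2) := by
    rw [Finset.sum_congr rfl (g := fun _ => (Fintype.card F : ℝ) - 5 / 2), Finset.sum_const,
      nsmul_eq_mul]
    · have h7 := two_card_special hs
      have h8 : (2 : ℝ) * ((Finset.univ.filter fun p : F × F => On s p ∧ IsHub P p).card : ℝ) =
          Fintype.card F := by exact_mod_cast h7
      rw [← h8]
      ring
    · intro p hp
      rw [Finset.mem_filter] at hp
      rw [hub_load' hs huniq hp.2.2, if_pos hp.2.1]
      ring
  rw [← h1]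
  have h2 : ∀ p ∈ Finset.univ.filter (fun p : F × F => On s p ∧ IsHub P p),
      ∑ l ∈ Finset.univ.filter (fun l : F × F => On l p), bw P l =
      ∑ l : F × F, if On l p then bw P l else 0 := by
    intro p _
    rw [Finset.sum_filter]
  rw [Finset.sum_congr rfl h2, Finset.sum_comm, Finset.sum_filter]
  refine Finset.sum_congr rfl fun l _ => ?_
  rw [← Finset.sum_filter, Finset.filter_filter, Finset.sum_const, nsmul_eq_mul]
  by_cases hls : l = s
  · rw [hls, bw_spl hs]
    simp
  by_cases h3 : Sp P s l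
  · rw [if_pos h3]
    obtain ⟨p, hp1, hp2, hp3⟩ := h3
    have h4 : (Finset.univ.filter fun p : F × F => (On s p ∧ IsHub P p) ∧ On l p) = {p} := by
      ext r
      simp only [Finset.mem_filter, Finset.mem_univ, true_and, Finset.mem_singleton]
      constructor
      · rintro ⟨⟨h5, h6⟩, h7⟩
        exact unique_common hls h7 h5 hp3 hp2
      · rintro rfl
        exact ⟨⟨hp2, hp1⟩, hp3⟩
    rw [h4]
    simp
  · rw [if_neg h3]
    have h4 : (Finset.univ.filter fun p : F × F => (On s p ∧ IsHub P p) ∧ On l p) = ∅ := by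
      rw [Finset.filter_eq_empty_iff]
      rintro r - ⟨⟨h5, h6⟩, h7⟩
      exact h3 ⟨r, h6, h5, h7⟩
    rw [h4]
    simp

end Pool.Agent.Helper48.SL
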