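import Pool.Agent.Helper48.SL.S6a

/-!
# S6b. The corrected weights
-/

set_option autoImplicit false
set_option linter.unusedSectionVars false

namespace Pool.Agent.Helper48.SL

variable {F : Type} [Field F] [Fintype F] [CharP F 2] {P : Par F} {s : F × F}

open Classical Pool.Agent.Helper32.SL

/-- The corrected weight. -/
noncomputable def aw (P : Par F) (s l : F × F) : ℝ :=
  bw P l * (1 - if Sp P s l then 1 / (Fintype.card F : ℝ) else 0)

lemma card_F_pos : (0 : ℝ) < Fintype.card F := by
  have : 0 < Fintype.card F := Fintype.card_pos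
  exact_mod_cast this

lemma card_F_ge_one : (1 : ℝ) ≤ Fintype.card F := by
  have : 0 < Fintype.card F := Fintype.card_pos
  exact_mod_cast this

lemma factor_nonneg (l : F × F) :
    0 ≤ (1 - if Sp P s l then 1 / (Fintype.card F : ℝ) else 0) := by
  split_ifs
  · have := card_F_ge_one (F := F)
    rw [sub_nonneg, div_le_one card_F_pos]
    exact this
  · norm_num

lemma factor_le_one (l : F × F) :
    (1 - if Sp P s l then 1 / (Fintype.card F : ℝ) else 0) ≤ 1 := by
  split_ifs
  · have := card_F_pos (F := F)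
    have h : (0 : ℝ) ≤ 1 / Fintype.card F := by positivity
    linarith
  · norm_num

lemma aw_nonneg (l : F × F) : 0 ≤ aw P s l := mul_nonneg (bw_nonneg P l) (factor_nonneg l)

lemma aw_le_one (l : F × F) : aw P s l ≤ 1 := by
  unfold aw
  calc bw P l * (1 - if Sp P s l then 1 / (Fintype.card F : ℝ) else 0)
      ≤ 1 * 1 := mul_le_mul (bw_le_one P l) (factor_le_one l) (factor_nonneg l) zero_le_one
    _ = 1 := one_mul 1

lemma aw_eq (l : F × F) : aw P s l =
    bw P l - 1 / (Fintype.card F : ℝ) * (if Sp P s l then bw P l else 0) := by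
  unfold aw
  split_ifs <;> ring

lemma sum_aw (L : Finset (F × F)) : ∑ l ∈ L, aw P s l =
    ∑ l ∈ L, bw P l - 1 / (Fintype.card F : ℝ) * ∑ l ∈ L.filter (fun l => Sp P s l), bw P l := by
  rw [Finset.sum_congr rfl fun l _ => aw_eq l, Finset.sum_sub_distrib, ← Finset.mul_sum,
    ← Finset.sum_filter]

/-- Two points with different first coordinates are on a line. -/
lemma exists_line {h p : F × F} (hne : h.1 ≠ p.1) : ∃ l : F × F, On l h ∧ On l p := by
  have hd : h.1 + p.1 ≠ 0 := fun h0 => hne (CharTwo.add_eq_zero.1 h0)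
  obtain ⟨d, hdd⟩ := Pool.Agent.Helper32.Arc.exists_sq ((h.2 + p.2) / (h.1 + p.1))
  refine ⟨(d, h.2 + d ^ 2 * h.1), ?_, ?_⟩
  · show h.2 = d ^ 2 * h.1 + (h.2 + d ^ 2 * h.1)
    have : d ^ 2 * h.1 + (h.2 + d ^ 2 * h.1) = h.2 + (d ^ 2 * h.1 + d ^ 2 * h.1) := by ring
    rw [this, CharTwo.add_self_eq_zero, add_zero]
  · show p.2 = d ^ 2 * p.1 + (h.2 + d ^ 2 * h.1)
    have h1 : d ^ 2 * (h.1 + p.1) = h.2 + p.2 := by rw [hdd, div_mul_cancel₀ _ hd]
    have h2 : d ^ 2 * p.1 + (h.2 + d ^ 2 * h.1) = d ^ 2 * (h.1 + p.1) + h.2 := by ring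
    rw [h2, h1]
    have h3 : h.2 + p.2 + h.2 = p.2 + (h.2 + h.2) := by ring
    rw [h3, CharTwo.add_self_eq_zero, add_zero]

section

variable (hs : Spl P s) (huniq : ∀ s', Spl P s' → s' = s)

include hs in
lemma card_special_real :
    ((Finset.univ.filter fun p : F × F => On s p ∧ IsHub P p).card : ℝ) = Fintype.card F / 2 := by
  have h7 := two_card_special hs
  have h8 : (2 : ℝ) * ((Finset.univ.filter fun p : F × F => On s p ∧ IsHub P p).card : ℝ) =
      Fintype.card F := by exact_mod_cast h7
  linarith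

include hs in
/-- The lines through a point outside the special line which meet it in a hub: at most `q/2`. -/
lemma card_sp_le {h : F × F} (hh : ¬ On s h) :
    ((Finset.univ.filter fun l : F × F => On l h ∧ Sp P s l).card : ℝ) ≤ Fintype.card F / 2 := by
  rw [← card_special_real hs]
  have hex : ∀ l ∈ (Finset.univ.filter fun l : F × F => On l h ∧ Sp P s l),
      ∃ p, IsHub P p ∧ On s p ∧ On l p := fun l hl => (Finset.mem_filter.1 hl).2.2
  choose! f hf1 hf2 hf3 using hex
  have := Finset.card_le_card_of_injOn (s := Finset.univ.filter fun l : F × F => On l h ∧ Sp P s l)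
    (t := Finset.univ.filter fun p : F × F => On s p ∧ IsHub P p) f
    (fun l hl => Finset.mem_coe.2 (Finset.mem_filter.2 ⟨Finset.mem_univ _, hf2 l hl, hf1 l hl⟩))
    (by
      intro l hl l' hl' he
      by_contra hne
      have h1 := (Finset.mem_filter.1 (Finset.mem_coe.1 hl)).2.1
      have h2 := (Finset.mem_filter.1 (Finset.mem_coe.1 hl')).2.1
      have h3 := hf3 l hl
      have h4 := hf3 l' hl'
      rw [← he] at h4
      have h5 := unique_common hne h1 h2 h3 h4
      apply hh
      rw [h5]
      exact hf2 l hl)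
  exact_mod_cast this

include hs in
lemma card_sp_ge {h : F × F} (hh : ¬ On s h) :
    (Fintype.card F : ℝ) / 2 - 1 ≤
      ((Finset.univ.filter fun l : F × F => On l h ∧ Sp P s l).card : ℝ) := by
  rw [← card_special_real hs]
  set Y := Finset.univ.filter fun p : F × F => On s p ∧ IsHub P p with hY
  set Y1 := Y.filter fun p => h.1 ≠ p.1 with hY1
  have h1 : Y.card ≤ Y1.card + 1 := by
    have h2 : (Y.filter fun p => ¬ h.1 ≠ p.1).card ≤ 1 := by
      rw [Finset.card_le_one]
      intro p hp p' hp'
      rw [Finset.mem_filter, not_not] at hp hp'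
      have h3 : p.2 = s.1 ^ 2 * p.1 + s.2 := (Finset.mem_filter.1 hp.1).2.1
      have h4 : p'.2 = s.1 ^ 2 * p'.1 + s.2 := (Finset.mem_filter.1 hp'.1).2.1
      have h5 : p.1 = p'.1 := hp.2.symm.trans hp'.2
      exact Prod.ext h5 (by rw [h3, h4, h5])
    have h3 : Y1.card + (Y.filter fun p => ¬ h.1 ≠ p.1).card = Y.card := by
      rw [hY1]
      convert Finset.card_filter_add_card_filter_not (s := Y) (fun p => h.1 ≠ p.1)
    omega
  have hex : ∀ p ∈ Y1, ∃ l : F × F, On l h ∧ On l p := fun p hp =>
    exists_line (Finset.mem_filter.1 hp).2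
  choose! f hf1 hf2 using hex
  have h2 : Y1.card ≤ (Finset.univ.filter fun l : F × F => On l h ∧ Sp P s l).card := by
    refine Finset.card_le_card_of_injOn f ?_ ?_
    · intro p hp
      have hp' := (Finset.mem_filter.1 (Finset.mem_filter.1 (Finset.mem_coe.1 hp)).1).2
      exact Finset.mem_coe.2 (Finset.mem_filter.2 ⟨Finset.mem_univ _, hf1 p hp,
        ⟨p, hp'.2, hp'.1, hf2 p hp⟩⟩)
    · intro p hp p' hp' he
      have h3 := (Finset.mem_filter.1 (Finset.mem_filter.1 (Finset.mem_coe.1 hp)).1).2
      have h4 := (Finset.mem_filter.1 (Finset.mem_filter.1 (Finset.mem_coe.1 hp')).1).2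
      have h5 := hf2 p' hp'
      rw [← he] at h5
      refine unique_common (l := f p) (l' := s) ?_ (hf2 p hp) h3.1 h5 h4.1
      intro h6
      apply hh
      rw [← h6]
      exact hf1 p hp
  have h3 : (Y.card : ℝ) ≤ Y1.card + 1 := by exact_mod_cast h1
  have h4 : (Y1.card : ℝ) ≤ ((Finset.univ.filter fun l : F × F => On l h ∧ Sp P s l).card : ℝ) := by
    exact_mod_cast h2
  linarith

include hs huniq in
/-- The load of a hub. -/
lemma load_bounds {h : F × F} (hh : IsHub P h) :
    (Fintype.card F : ℝ) - 7 / 2 ≤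
        ∑ l ∈ Finset.univ.filter (fun l : F × F => On l h), aw P s l ∧
      ∑ l ∈ Finset.univ.filter (fun l : F × F => On l h), aw P s l ≤
        (Fintype.card F : ℝ) - 7 / 2 + 4 / Fintype.card F := by
  have hq := card_F_pos (F := F)
  rw [sum_aw, hub_load' hs huniq hh, Finset.filter_filter]
  by_cases hon : On s h
  · rw [if_pos hon]
    have h1 : (Finset.univ.filter fun l : F × F => On l h ∧ Sp P s l) =
        Finset.univ.filter fun l : F × F => On l h := by
      ext l
      simp only [Finset.mem_filter, Finset.mem_univ, true_and, and_iff_left_iff_imp]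
      intro h2
      exact ⟨h, hh, hon, h2⟩
    rw [h1, hub_load' hs huniq hh, if_pos hon]
    have h2 : (1 : ℝ) / Fintype.card F * (Fintype.card F - 3 + 1 / 2) =
        1 - 5 / 2 / Fintype.card F := by
      field_simp
      ring
    rw [h2]
    have h3 : (0 : ℝ) ≤ 5 / 2 / Fintype.card F := by positivity
    have h4 : (5 : ℝ) / 2 / Fintype.card F ≤ 4 / Fintype.card F :=
      div_le_div_of_nonneg_right (by norm_num) hq.le
    constructor <;> linarith
  · rw [if_neg hon]
    set L := Finset.univ.filter fun l : F × F => On l h ∧ Sp P s l with hL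
    have h1 : ∑ l ∈ L, bw P l ≤ Fintype.card F / 2 := by
      refine le_trans ?_ (card_sp_le hs hon)
      refine (Finset.sum_le_card_nsmul L _ 1 fun l _ => bw_le_one P l).trans ?_
      rw [nsmul_eq_mul, mul_one]
    have h2 : (Fintype.card F : ℝ) / 2 - 4 ≤ ∑ l ∈ L, bw P l := by
      have h3 := hub_bad P hh L (fun l hl => (Finset.mem_filter.1 hl).2.1) (by
        intro l hl hspl
        rw [huniq l hspl] at hl
        exact hon (Finset.mem_filter.1 hl).2.1)
      have h4 := card_sp_ge hs hon
      rw [← hL] at h4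
      linarith
    have h5 : (1 : ℝ) / Fintype.card F * ∑ l ∈ L, bw P l ≤ 1 / 2 := by
      calc (1 : ℝ) / Fintype.card F * ∑ l ∈ L, bw P l ≤ 1 / Fintype.card F * (Fintype.card F / 2) :=
            mul_le_mul_of_nonneg_left h1 (by positivity)
        _ = 1 / 2 := by field_simp
    have h6 : (1 : ℝ) / 2 - 4 / Fintype.card F ≤ 1 / Fintype.card F * ∑ l ∈ L, bw P l := by
      calc (1 : ℝ) / 2 - 4 / Fintype.card F = 1 / Fintype.card F * (Fintype.card F / 2 - 4) := by
            field_simp
        _ ≤ 1 / Fintype.card F * ∑ l ∈ L, bw P l :=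
            mul_le_mul_of_nonneg_left h2 (by positivity)
    constructor <;> linarith

include hs huniq in
/-- The total weight. -/
lemma total_aw : ∑ l, aw P s l = (Fintype.card F : ℝ) ^ 2 - 5 * Fintype.card F + 25 / 4 := by
  have hq := card_F_pos (F := F)
  rw [sum_aw, total_sp hs huniq]
  have h1 := total_bw hs huniq
  have h2 : ∑ l, bw P l = (Fintype.card F : ℝ) ^ 2 - 9 / 2 * Fintype.card F + 5 := by
    have h3 : (Fintype.card F : ℝ) * ∑ l, bw P l =
        Fintype.card F * ((Fintype.card F : ℝ) ^ 2 - 9 / 2 * Fintype.card F + 5) := by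
      rw [h1]; ring
    exact mul_left_cancel₀ hq.ne' h3
  rw [h2]
  field_simp
  ring

include hs in
/-- The pencils at the points which are not hubs. -/
lemma pencil_aw (p : F × F) (hp : ¬ IsHub P p) : (Fintype.card F : ℝ) - 13 ≤
    ∑ l ∈ Finset.univ.filter (fun l : F × F => On l p), aw P s l := by
  have hq := card_F_pos (F := F)
  rw [sum_aw, Finset.filter_filter]
  have h1 := pencil_ge P p
  have h2 : ∑ l ∈ Finset.univ.filter (fun l : F × F => On l p ∧ Sp P s l), bw P l ≤
      Fintype.card F / 2 := by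
    by_cases hon : On s p
    · -- only the special line itself, which has weight zero
      have h3 : ∑ l ∈ Finset.univ.filter (fun l : F × F => On l p ∧ Sp P s l), bw P l = 0 := by
        refine Finset.sum_eq_zero fun l hl => ?_
        obtain ⟨h4, r, hr1, hr2, hr3⟩ := (Finset.mem_filter.1 hl).2
        by_cases hls : l = s
        · rw [hls]; exact bw_spl hs
        · have h5 := unique_common hls h4 hon hr3 hr2
          rw [h5] at hp
          exact absurd hr1 hp
      rw [h3]
      positivity
    · refine le_trans ?_ (card_sp_le hs hon)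
      refine (Finset.sum_le_card_nsmul _ _ 1 fun l _ => bw_le_one P l).trans ?_
      rw [nsmul_eq_mul, mul_one]
  have h3 : (1 : ℝ) / Fintype.card F *
      ∑ l ∈ Finset.univ.filter (fun l : F × F => On l p ∧ Sp P s l), bw P l ≤ 1 / 2 := by
    calc (1 : ℝ) / Fintype.card F *
        ∑ l ∈ Finset.univ.filter (fun l : F × F => On l p ∧ Sp P s l), bw P l
        ≤ 1 / Fintype.card F * (Fintype.card F / 2) :=
          mul_le_mul_of_nonneg_left h2 (by positivity)
      _ = 1 / 2 := by field_simp
  linarith

/-- The lines with a given slope which meet the special line in a hub. -/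
lemma card_dir_sp (hs : Spl P s) (d : F) :
    ∑ l ∈ Finset.univ.filter (fun l : F × F => l.1 = d ∧ Sp P s l), bw P l ≤
      Fintype.card F / 2 := by
  have hq := card_F_pos (F := F)
  by_cases hd : d = s.1
  · have h3 : ∑ l ∈ Finset.univ.filter (fun l : F × F => l.1 = d ∧ Sp P s l), bw P l = 0 := by
      refine Finset.sum_eq_zero fun l hl => ?_
      obtain ⟨h4, r, hr1, hr2, hr3⟩ := (Finset.mem_filter.1 hl).2
      by_cases hls : l = s
      · rw [hls]; exact bw_spl hs
      · have h5 := no_common l s (h4.trans hd) hls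
        rw [Finset.card_eq_zero, Finset.filter_eq_empty_iff] at h5
        exact absurd ⟨hr3, hr2⟩ (h5 (Finset.mem_univ r))
    rw [h3]
    positivity
  · rw [← card_special_real hs]
    refine (Finset.sum_le_card_nsmul _ _ 1 fun l _ => bw_le_one P l).trans ?_
    rw [nsmul_eq_mul, mul_one]
    have hex : ∀ l ∈ (Finset.univ.filter fun l : F × F => l.1 = d ∧ Sp P s l),
        ∃ p, IsHub P p ∧ On s p ∧ On l p := fun l hl => (Finset.mem_filter.1 hl).2.2
    choose! f hf1 hf2 hf3 using hex
    have := Finset.card_le_card_of_injOn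
      (s := Finset.univ.filter fun l : F × F => l.1 = d ∧ Sp P s l)
      (t := Finset.univ.filter fun p : F × F => On s p ∧ IsHub P p) f
      (fun l hl => Finset.mem_coe.2 (Finset.mem_filter.2 ⟨Finset.mem_univ _, hf2 l hl, hf1 l hl⟩))
      (by
        intro l hl l' hl' he
        by_contra hne
        have h1 := (Finset.mem_filter.1 (Finset.mem_coe.1 hl)).2.1
        have h2 := (Finset.mem_filter.1 (Finset.mem_coe.1 hl')).2.1
        have h3 := hf3 l hl
        have h4 := hf3 l' hl'
        rw [← he] at h4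
        have h5 := no_common l l' (h1.trans h2.symm) hne
        rw [Finset.card_eq_zero, Finset.filter_eq_empty_iff] at h5
        exact h5 (Finset.mem_univ _) ⟨h3, h4⟩)
    exact_mod_cast this

lemma dir_aw (hs : Spl P s) (d : F) : (Fintype.card F : ℝ) - 13 ≤
    ∑ l ∈ Finset.univ.filter (fun l : F × F => l.1 = d), aw P s l := by
  have hq := card_F_pos (F := F)
  rw [sum_aw, Finset.filter_filter]
  have h1 := dir_ge P d
  have h2 := card_dir_sp hs d
  have h3 : (1 : ℝ) / Fintype.card F *
      ∑ l ∈ Finset.univ.filter (fun l : F × F => l.1 = d ∧ Sp P s l), bw P l ≤ 1 / 2 := by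
    calc (1 : ℝ) / Fintype.card F *
        ∑ l ∈ Finset.univ.filter (fun l : F × F => l.1 = d ∧ Sp P s l), bw P l
        ≤ 1 / Fintype.card F * (Fintype.card F / 2) :=
          mul_le_mul_of_nonneg_left h2 (by positivity)
      _ = 1 / 2 := by field_simp
  linarith

end

end Pool.Agent.Helper48.SL
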