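import Pool.Agent.Helper48.SL.S6b
import Pool.Agent.Helper57.SL.Pencil

/-!
# S6c. The structure in the form of `pencil_lower_bound`
-/

set_option autoImplicit false
set_option linter.unusedSectionVars false

namespace Pool.Agent.Helper48.SL

open Pool.Agent.Helper14.Square Classical Pool.Agent.Helper32.SL
  Pool.Agent.Helper57.SL

variable {F : Type} [Field F] [Fintype F] [CharP F 2]

/-- The classes. -/
abbrev Cls (P : Par F) : Type := {l : F × F // bw P l ≠ 0}

/-- The pencils. -/
abbrev Pen (P : Par F) : Type := {p : F × F // ¬ IsHub P p} ⊕ F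

lemma sum_cls (P : Par F) (f : F × F → ℝ) (hf : ∀ l, bw P l = 0 → f l = 0) (Q : F × F → Prop) :
    ∑ i ∈ Finset.univ.filter (fun i : Cls P => Q i.1), f i.1 =
      ∑ l ∈ Finset.univ.filter (fun l : F × F => Q l), f l := by
  have h1 : ∑ l ∈ Finset.univ.filter (fun l : F × F => Q l), f l =
      ∑ l ∈ Finset.univ.filter (fun l : F × F => Q l ∧ bw P l ≠ 0), f l := by
    rw [← Finset.filter_filter]
    refine (Finset.sum_filter_of_ne ?_).symm
    intro l _ hl h0
    exact hl (hf l h0)
  rw [h1]
  refine Finset.sum_bij (fun i _ => i.1) ?_ ?_ ?_ ?_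
  · intro i hi
    exact Finset.mem_filter.2 ⟨Finset.mem_univ _, (Finset.mem_filter.1 hi).2, i.2⟩
  · intro i _ j _ h
    exact Subtype.ext h
  · intro l hl
    have h2 := (Finset.mem_filter.1 hl).2
    exact ⟨⟨l, h2.2⟩, Finset.mem_filter.2 ⟨Finset.mem_univ _, h2.1⟩, rfl⟩
  · intro i _
    rfl

lemma aw_zero {P : Par F} {s l : F × F} (h : bw P l = 0) : aw P s l = 0 := by
  unfold aw
  rw [h, zero_mul]

theorem struct_bound (P : Par F) (k : ℕ) (hk : 2 ≤ k) (hF : Fintype.card F = 2 * k) (w0 : ℝ)
    (hw0 : 0 ≤ w0) (h1 : w0 * (2 * k - 7 / 2 + 2 / k) ≤ 1)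
    (h2 : w0 * ((4 * (k : ℝ) ^ 2 - 10 * k + 25 / 4 - k * (2 * k - 7 / 2) + (k - 1)) / (k - 1) +
      (k + 1) * (2 ^ k * Real.exp (-(2 * (k : ℝ) - 13 - 1) / 2))) ≤ 1)
    (ε : ℝ) (hε : 0 < ε) :
    ∃ C : ℝ, ∀ D : ℕ, (w0 * (4 * (k : ℝ) ^ 2 - 10 * k + 25 / 4) - ε) * D - C ≤ M k D := by
  obtain ⟨s, hs, huniq⟩ := exists_spl P
  have hk' : (2 : ℝ) ≤ k := by exact_mod_cast hk
  have hF' : (Fintype.card F : ℝ) = 2 * k := by exact_mod_cast hF
  set hub : Cls P → Finset (F × F) := fun i =>
    Finset.univ.filter (fun p : F × F => On i.1 p ∧ IsHub P p) with hhub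
  set pen : Pen P → Finset (Cls P) := fun p => match p with
    | Sum.inl p => Finset.univ.filter (fun i : Cls P => On i.1 p.1)
    | Sum.inr d => Finset.univ.filter (fun i : Cls P => i.1.1 = d) with hpen
  have hcard : ∀ i : Cls P, (hub i).card = k := by
    intro i
    have h3 := good_card i.2
    rw [hF] at h3
    have h4 : (hub i).card = (Finset.univ.filter fun p : F × F => On i.1 p ∧ IsHub P p).card := rfl
    omega
  have htot : ∑ i : Cls P, aw P s i.1 = 4 * (k : ℝ) ^ 2 - 10 * k + 25 / 4 := by
    have h3 := sum_cls P (fun l => aw P s l) (fun l h => aw_zero h) (fun _ => True)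
    simp only [Finset.filter_true] at h3
    rw [h3, total_aw hs huniq, hF']
    ring
  rw [← htot]
  have hLl : ∀ h : F × F, ∑ i ∈ Finset.univ.filter (fun i : Cls P => On i.1 h), aw P s i.1 =
      ∑ l ∈ Finset.univ.filter (fun l : F × F => On l h), aw P s l := fun h =>
    sum_cls P (fun l => aw P s l) (fun l h => aw_zero h) (fun l => On l h)
  have hLd : ∀ d : F, ∑ i ∈ Finset.univ.filter (fun i : Cls P => i.1.1 = d), aw P s i.1 =
      ∑ l ∈ Finset.univ.filter (fun l : F × F => l.1 = d), aw P s l := fun d =>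
    sum_cls P (fun l => aw P s l) (fun l h => aw_zero h) (fun l => l.1 = d)
  refine pencil_lower_bound k hk hub pen (fun i => aw P s i.1) w0 (2 * k - 13) ?_ ?_ ?_ ?_ hw0
    ?_ ?_ ?_ ?_ ε hε
  · intro i
    exact (hcard i).le
  · intro i
    rw [← Finset.card_pos, hcard i]
    omega
  · intro i
    exact aw_nonneg i.1
  · intro i
    exact aw_le_one i.1
  · -- the loads
    intro h
    suffices key : ∀ t : Finset (Cls P), (∀ i, i ∈ t ↔ h ∈ hub i) →
        w0 * ∑ i ∈ t, aw P s i.1 ≤ 1 by
      refine key _ fun i => ?_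
      simp only [Finset.mem_filter, Finset.mem_univ, true_and]
    intro t ht
    by_cases hh : IsHub P h
    · have h3 : t = Finset.univ.filter fun i : Cls P => On i.1 h := by
        ext i
        rw [ht i]
        constructor
        · intro h4
          exact Finset.mem_filter.2 ⟨Finset.mem_univ _, (Finset.mem_filter.1 h4).2.1⟩
        · intro h4
          exact Finset.mem_filter.2 ⟨Finset.mem_univ _, (Finset.mem_filter.1 h4).2, hh⟩
      rw [h3, hLl h]
      refine le_trans (mul_le_mul_of_nonneg_left (load_bounds hs huniq hh).2 hw0) ?_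
      rw [hF']
      refine le_trans (le_of_eq ?_) h1
      congr 1
      field_simp
      ring
    · have h3 : t = ∅ := by
        rw [Finset.eq_empty_iff_forall_notMem]
        intro i hi
        exact hh (Finset.mem_filter.1 ((ht i).1 hi)).2.2
      rw [h3, Finset.sum_empty, mul_zero]
      exact zero_le_one
  · -- two classes without common hub are in a common pencil
    intro i j hij hdis
    by_cases hd : i.1.1 = j.1.1
    · refine ⟨Sum.inr i.1.1, ?_, ?_⟩
      · exact Finset.mem_filter.2 ⟨Finset.mem_univ _, rfl⟩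
      · exact Finset.mem_filter.2 ⟨Finset.mem_univ _, hd.symm⟩
    · have h3 := common i.1 j.1 hd
      obtain ⟨p, hp⟩ := Finset.card_pos.1 (by rw [h3]; exact Nat.one_pos)
      have hp' := (Finset.mem_filter.1 hp).2
      by_cases hh : IsHub P p
      · exfalso
        rw [Finset.disjoint_left] at hdis
        exact hdis (Finset.mem_filter.2 ⟨Finset.mem_univ _, hp'.1, hh⟩)
          (Finset.mem_filter.2 ⟨Finset.mem_univ _, hp'.2, hh⟩)
      · exact ⟨Sum.inl ⟨p, hh⟩, Finset.mem_filter.2 ⟨Finset.mem_univ _, hp'.1⟩,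
          Finset.mem_filter.2 ⟨Finset.mem_univ _, hp'.2⟩⟩
  · -- the pencils are large
    rintro (p | d)
    · show _ ≤ ∑ i ∈ Finset.univ.filter (fun i : Cls P => On i.1 p.1), aw P s i.1
      rw [hLl p.1]
      have := pencil_aw hs p.1 p.2
      rw [hF'] at this
      exact this
    · show _ ≤ ∑ i ∈ Finset.univ.filter (fun i : Cls P => i.1.1 = d), aw P s i.1
      rw [hLd d]
      have := dir_aw hs d
      rw [hF'] at this
      exact this
  · -- the degrees
    intro i
    refine le_trans (mul_le_mul_of_nonneg_left ?_ hw0) h2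
    set er : ℝ := 2 ^ k * Real.exp (-(2 * (k : ℝ) - 13 - 1) / 2) with her
    have hk1 : (0 : ℝ) < k - 1 := by linarith
    set S : F × F → ℝ := fun p => ∑ l ∈ Finset.univ.filter (fun l : F × F => On l p), aw P s l
      with hS
    -- the sum over the pencils of `i`
    suffices key : ∀ (t : Finset (Pen P)) (e : Pen P → Finset (Cls P)),
        (∀ p, p ∈ t ↔ i ∈ pen p) → (∀ p j, j ∈ e p ↔ j ≠ i ∧ j ∈ pen p) →
        ∑ p ∈ t, ((∑ j ∈ e p, aw P s j.1) / (k - 1) + er) ≤
        (4 * (k : ℝ) ^ 2 - 10 * k + 25 / 4 - k * (2 * k - 7 / 2) + (k - 1)) / (k - 1) +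
          (k + 1) * er by
      refine key _ _ (fun p => ?_) (fun p j => ?_)
      · simp only [Finset.mem_filter, Finset.mem_univ, true_and]
      · simp only [Finset.mem_erase]
    intro t e ht he
    have ht' : t = Finset.univ.filter (fun p : Pen P => i ∈ pen p) := by
      ext p
      rw [ht p]
      simp only [Finset.mem_filter, Finset.mem_univ, true_and]
    have he' : e = fun p => (pen p).erase i := by
      funext p
      ext j
      rw [he p j]
      simp only [Finset.mem_erase]
    rw [ht', he']
    have h3 : ∑ p ∈ Finset.univ.filter (fun p : Pen P => i ∈ pen p),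
        ((∑ j ∈ (pen p).erase i, aw P s j.1) / (k - 1) + er) =
        (∑ p ∈ Finset.univ.filter (fun p : F × F => On i.1 p ∧ ¬ IsHub P p),
          ((S p - aw P s i.1) / (k - 1) + er)) +
        ((∑ l ∈ Finset.univ.filter (fun l : F × F => l.1 = i.1.1), aw P s l - aw P s i.1) / (k - 1)
          + er) := by
      rw [Finset.sum_filter, Fintype.sum_sum_type]
      congr 1
      · have h4 : ∀ p : {p : F × F // ¬ IsHub P p}, (if i ∈ pen (Sum.inl p) then
            ((∑ j ∈ (pen (Sum.inl p)).erase i, aw P s j.1) / (k - 1) + er) else 0) =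
            if On i.1 p.1 then ((S p.1 - aw P s i.1) / (k - 1) + er) else 0 := by
          intro p
          have h5 : i ∈ pen (Sum.inl p) ↔ On i.1 p.1 := by
            show i ∈ Finset.univ.filter (fun i : Cls P => On i.1 p.1) ↔ _
            simp
          by_cases hon : On i.1 p.1
          · rw [if_pos (h5.2 hon), if_pos hon, Finset.sum_erase_eq_sub (h5.2 hon)]
            have h6 : ∑ j ∈ pen (Sum.inl p), aw P s j.1 = S p.1 := hLl p.1
            rw [h6]
          · rw [if_neg (fun h => hon (h5.1 h)), if_neg hon]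
        rw [Finset.sum_congr rfl fun p _ => h4 p, ← Finset.sum_filter]
        refine Finset.sum_bij (fun p _ => p.1) ?_ ?_ ?_ ?_
        · intro p hp
          exact Finset.mem_filter.2 ⟨Finset.mem_univ _, (Finset.mem_filter.1 hp).2, p.2⟩
        · intro p _ p' _ h
          exact Subtype.ext h
        · intro p hp
          have h6 := (Finset.mem_filter.1 hp).2
          exact ⟨⟨p, h6.2⟩, Finset.mem_filter.2 ⟨Finset.mem_univ _, h6.1⟩, rfl⟩
        · intro p _
          rfl
      · have h4 : ∀ d : F, (if i ∈ pen (Sum.inr d) then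
            ((∑ j ∈ (pen (Sum.inr d)).erase i, aw P s j.1) / (k - 1) + er) else 0) =
            if i.1.1 = d then
              ((∑ l ∈ Finset.univ.filter (fun l : F × F => l.1 = d), aw P s l - aw P s i.1) /
                (k - 1) + er) else 0 := by
          intro d
          have h5 : i ∈ pen (Sum.inr d) ↔ i.1.1 = d := by
            show i ∈ Finset.univ.filter (fun i : Cls P => i.1.1 = d) ↔ _
            simp
          by_cases hon : i.1.1 = d
          · rw [if_pos (h5.2 hon), if_pos hon, Finset.sum_erase_eq_sub (h5.2 hon)]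
            have h6 : ∑ j ∈ pen (Sum.inr d), aw P s j.1 =
              ∑ l ∈ Finset.univ.filter (fun l : F × F => l.1 = d), aw P s l := hLd d
            rw [h6]
          · rw [if_neg (fun h => hon (h5.1 h)), if_neg hon]
        rw [Finset.sum_congr rfl fun d _ => h4 d, Finset.sum_ite_eq, if_pos (Finset.mem_univ _)]
    rw [h3]
    -- the number of the points which are not hubs
    have hnh : ((Finset.univ.filter fun p : F × F => On i.1 p ∧ ¬ IsHub P p).card : ℝ) = k := by
      have h4 := card_points i.1
      have h5 : (Finset.univ.filter fun p : F × F => On i.1 p ∧ IsHub P p).card +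
          (Finset.univ.filter fun p : F × F => On i.1 p ∧ ¬ IsHub P p).card =
          (Finset.univ.filter fun p : F × F => On i.1 p).card := by
        rw [← Finset.filter_filter, ← Finset.filter_filter]
        exact Finset.card_filter_add_card_filter_not _
      have h6 := hcard i
      have h7 : (hub i).card = (Finset.univ.filter fun p : F × F => On i.1 p ∧ IsHub P p).card := rfl
      have h8 : (Finset.univ.filter fun p : F × F => On i.1 p ∧ ¬ IsHub P p).card = k := by omega
      exact_mod_cast h8
    have hall := sum_all (fun l => aw P s l) i.1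
    have hsplit : ∑ p ∈ Finset.univ.filter (fun p : F × F => On i.1 p), (S p - aw P s i.1) =
        ∑ p ∈ Finset.univ.filter (fun p : F × F => On i.1 p ∧ IsHub P p), (S p - aw P s i.1) +
        ∑ p ∈ Finset.univ.filter (fun p : F × F => On i.1 p ∧ ¬ IsHub P p),
          (S p - aw P s i.1) := by
      rw [← Finset.filter_filter, ← Finset.filter_filter]
      exact (Finset.sum_filter_add_sum_filter_not _ _ _).symm
    have hhubs : (k : ℝ) * (2 * k - 7 / 2 - aw P s i.1) ≤
        ∑ p ∈ Finset.univ.filter (fun p : F × F => On i.1 p ∧ IsHub P p),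
          (S p - aw P s i.1) := by
      have h4 : (k : ℝ) * (2 * k - 7 / 2 - aw P s i.1) =
          ∑ p ∈ Finset.univ.filter (fun p : F × F => On i.1 p ∧ IsHub P p),
            (2 * (k : ℝ) - 7 / 2 - aw P s i.1) := by
        rw [Finset.sum_const, nsmul_eq_mul]
        congr 1
        have h6 := hcard i
        have h7 : (hub i).card =
          (Finset.univ.filter fun p : F × F => On i.1 p ∧ IsHub P p).card := rfl
        rw [← h7, h6]
      rw [h4]
      refine Finset.sum_le_sum fun p hp => ?_
      have h5 := (load_bounds hs huniq (Finset.mem_filter.1 hp).2.2).1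
      rw [hF'] at h5
      have h6 : 2 * (k : ℝ) - 7 / 2 ≤ S p := h5
      linarith
    have hsum : ∑ p ∈ Finset.univ.filter (fun p : F × F => On i.1 p ∧ ¬ IsHub P p),
        ((S p - aw P s i.1) / (k - 1) + er) =
        (∑ p ∈ Finset.univ.filter (fun p : F × F => On i.1 p ∧ ¬ IsHub P p),
          (S p - aw P s i.1)) / (k - 1) + k * er := by
      rw [Finset.sum_add_distrib, Finset.sum_div, Finset.sum_const, nsmul_eq_mul, hnh]
    rw [hsum]
    have htot2 := total_aw hs huniq
    rw [hF'] at htot2
    have hA1 := aw_le_one (P := P) (s := s) i.1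
    have hfin : (∑ p ∈ Finset.univ.filter (fun p : F × F => On i.1 p ∧ ¬ IsHub P p),
          (S p - aw P s i.1)) +
        (∑ l ∈ Finset.univ.filter (fun l : F × F => l.1 = i.1.1), aw P s l - aw P s i.1) ≤
        4 * (k : ℝ) ^ 2 - 10 * k + 25 / 4 - k * (2 * k - 7 / 2) + (k - 1) := by
      have h4 : ∑ p ∈ Finset.univ.filter (fun p : F × F => On i.1 p), (S p - aw P s i.1) +
        (∑ l ∈ Finset.univ.filter (fun l : F × F => l.1 = i.1.1), aw P s l - aw P s i.1) =
        (2 * (k : ℝ)) ^ 2 - 5 * (2 * k) + 25 / 4 - aw P s i.1 := by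
        rw [← htot2]
        exact hall
      rw [hsplit] at h4
      nlinarith
    have hfin2 := div_le_div_of_nonneg_right hfin hk1.le
    rw [add_div] at hfin2
    linarith

end Pool.Agent.Helper48.SL
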