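import Pool.Agent.Helper48.SL.S6c

/-!
# S6d. The numbers
-/

set_option autoImplicit false

namespace Pool.Agent.Helper48.SL

open Pool.Agent.Helper14.Square Filter Pool.Agent.Helper32.SL

lemma err_eventually : ∀ᶠ k : ℕ in atTop,
    ((k : ℝ) + 1) * (2 ^ k * Real.exp (-(2 * (k : ℝ) - 13 - 1) / 2)) ≤ 1 / (2 * k) := by
  set r : ℝ := 2 * Real.exp (-1) with hr
  have hr0 : 0 < r := by positivity
  have hr1 : r < 1 := by
    have h1 : (2 : ℝ) < Real.exp 1 := by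
      have := Real.add_one_lt_exp (x := 1) (by norm_num)
      linarith
    rw [hr, Real.exp_neg, ← div_eq_mul_inv, div_lt_one (Real.exp_pos 1)]
    exact h1
  have hr' : |r| < 1 := by rw [abs_of_pos hr0]; exact hr1
  have h2 : Tendsto (fun k : ℕ => 2 * Real.exp 7 * ((k : ℝ) ^ 2 * r ^ k) +
      2 * Real.exp 7 * ((k : ℝ) ^ 1 * r ^ k)) atTop (nhds (2 * Real.exp 7 * 0 + 2 * Real.exp 7 * 0)) :=
    ((tendsto_pow_const_mul_const_pow_of_abs_lt_one 2 hr').const_mul _).add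
      ((tendsto_pow_const_mul_const_pow_of_abs_lt_one 1 hr').const_mul _)
  rw [mul_zero, add_zero] at h2
  filter_upwards [h2.eventually (ge_mem_nhds (show (0 : ℝ) < 1 by norm_num)), eventually_gt_atTop 0]
    with k hk hk0
  have hk' : (0 : ℝ) < k := by exact_mod_cast hk0
  have h3 : (2 : ℝ) ^ k * Real.exp (-(2 * (k : ℝ) - 13 - 1) / 2) = Real.exp 7 * r ^ k := by
    rw [hr, mul_pow, ← Real.exp_nat_mul]
    have h4 : Real.exp (-(2 * (k : ℝ) - 13 - 1) / 2) = Real.exp 7 * Real.exp (k * -1) := by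
      rw [← Real.exp_add]
      congr 1
      ring
    rw [h4]
    ring
  rw [h3, le_div_iff₀ (by positivity)]
  have hk2 : 2 * Real.exp 7 * ((k : ℝ) ^ 2 * r ^ k) + 2 * Real.exp 7 * ((k : ℝ) ^ 1 * r ^ k) ≤ 1 := hk
  calc ((k : ℝ) + 1) * (Real.exp 7 * r ^ k) * (2 * k) =
      2 * Real.exp 7 * ((k : ℝ) ^ 2 * r ^ k) + 2 * Real.exp 7 * ((k : ℝ) ^ 1 * r ^ k) := by ring
    _ ≤ 1 := hk2

theorem sharp_lower : ∃ J : ℕ, ∀ j : ℕ, J ≤ j → ∃ C : ℝ, ∀ D : ℕ,
    (2 * (2 : ℝ) ^ j - 3 / 2 - 4 / (2 : ℝ) ^ j) * D - C ≤ M (2 ^ j) D := by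
  obtain ⟨K, hK⟩ := eventually_atTop.1 err_eventually
  refine ⟨max K 4, fun j hj => ?_⟩
  set k : ℕ := 2 ^ j with hk
  have hjk : j ≤ k := (Nat.lt_two_pow_self).le
  have hkK : K ≤ k := (le_trans (le_max_left _ _) hj).trans hjk
  have hj4 : 4 ≤ j := (le_max_right _ _).trans hj
  have hk16 : 16 ≤ k := by
    rw [hk]
    calc 16 = 2 ^ 4 := by norm_num
      _ ≤ 2 ^ j := Nat.pow_le_pow_right (by norm_num) hj4
  have hkr : (16 : ℝ) ≤ k := by exact_mod_cast hk16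
  have hk0 : (0 : ℝ) < k := by linarith
  haveI : Fact (Nat.Prime 2) := ⟨Nat.prime_two⟩
  set F := GaloisField 2 (j + 1) with hFdef
  haveI : Fintype F := Fintype.ofFinite F
  have hcard : Fintype.card F = 2 * k := by
    rw [← Nat.card_eq_fintype_card, GaloisField.card 2 (j + 1) (Nat.succ_ne_zero j), hk, pow_succ,
      mul_comm]
  obtain ⟨P⟩ := exists_par (F := F) (by omega)
  have herr := hK k hkK
  set er : ℝ := ((k : ℝ) + 1) * (2 ^ k * Real.exp (-(2 * (k : ℝ) - 13 - 1) / 2)) with her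
  have hden : (0 : ℝ) < 2 * k - 7 / 2 + 3 / k := by
    have : (0 : ℝ) < 3 / k := by positivity
    linarith
  obtain ⟨C, hC⟩ := struct_bound P k (by omega) hcard (1 / (2 * k - 7 / 2 + 3 / k))
    (by positivity) (by
      rw [one_div, inv_mul_le_iff₀ hden, mul_one]
      have : (2 : ℝ) / k ≤ 3 / k := div_le_div_of_nonneg_right (by norm_num) hk0.le
      linarith) (by
      rw [one_div, inv_mul_le_iff₀ hden, mul_one, ← her]
      have hk1 : (0 : ℝ) < k - 1 := by linarith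
      have h1 : (4 * (k : ℝ) ^ 2 - 10 * k + 25 / 4 - k * (2 * k - 7 / 2) + (k - 1)) / (k - 1) =
          2 * k - 7 / 2 + 7 / 4 / (k - 1) := by
        field_simp
        ring
      have h2 : 7 / 4 / ((k : ℝ) - 1) ≤ 5 / 2 / k := by
        rw [div_le_div_iff₀ hk1 hk0]
        linarith
      have h3 : (5 : ℝ) / 2 / k + 1 / (2 * k) = 3 / k := by
        field_simp
        norm_num
      rw [h1]
      linarith) (1 / k) (by positivity)
  refine ⟨C, fun D => le_trans ?_ (hC D)⟩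
  have hD : (0 : ℝ) ≤ D := Nat.cast_nonneg D
  have h2 : ((2 : ℝ) ^ j) = (k : ℝ) := by rw [hk]; push_cast; ring
  rw [h2]
  refine sub_le_sub_right (mul_le_mul_of_nonneg_right ?_ hD) C
  have h3 : 2 * (k : ℝ) - 3 / 2 - 3 / k ≤
      1 / (2 * k - 7 / 2 + 3 / k) * (4 * (k : ℝ) ^ 2 - 10 * k + 25 / 4) := by
    rw [one_div, inv_mul_eq_div, le_div_iff₀ hden]
    have h4 : (2 * (k : ℝ) - 3 / 2 - 3 / k) * (2 * k - 7 / 2 + 3 / k) =
        4 * (k : ℝ) ^ 2 - 10 * k + 21 / 4 + 6 / k - 9 / k ^ 2 := by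
      field_simp
      ring
    rw [h4]
    have h5 : (6 : ℝ) / k ≤ 1 := by
      rw [div_le_one hk0]
      linarith
    have h6 : (0 : ℝ) ≤ 9 / (k : ℝ) ^ 2 := by positivity
    linarith
  have h7 : (4 : ℝ) / k = 3 / k + 1 / k := by
    field_simp
    norm_num
  rw [h7]
  linarith

end Pool.Agent.Helper48.SL
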